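import Mathlib
import Pool.Agent.U462.Sh.ZAdm

set_option autoImplicit false

/-!
# Twin prime pairs between consecutive cubes: every pattern of the cubes is possible
-/

namespace Pool.Agent.Results.MP_d610d0_nt.AnyPatternOfCubes

open Finset Filter
open scoped Topology
open Pool.Agent.U462.Sh.Law

/-- `T(n)` with the set `S` in place of the primes: the number of pairs `t, t + 2` of elements of `S`
between `n ^ 3` and `(n + 1) ^ 3` -/
noncomputable def pairs (S : Set ℕ) (n : ℕ) : ℕ :=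
  {t : ℕ | t ∈ S ∧ t + 2 ∈ S ∧ n ^ 3 < t ∧ t + 2 < (n + 1) ^ 3}.ncard

/-- **Every pattern of the cubes is possible.** For every set `N` of natural numbers there is a set `S` of
rough numbers `≥ 2` with `T(n) = 0` for `n` in `N` and `T(n) → ∞` for `n` outside `N`, for which the uniform
Hardy–Littlewood law holds for all systems of linear forms and all intervals, except for those systems with
two forms `l, l + 2` for which `l` has in the interval a value `t` with `n ^ 3 < t`, `t + 2 < (n + 1) ^ 3`,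
`n` in `N`. -/
theorem result : ∀ N : Set ℕ, ∃ S : Set ℕ, (∀ m ∈ S, 2 ≤ m ∧ Rough m) ∧ (∀ n ∈ N, pairs S n = 0) ∧
    (∀ K : ℕ, ∃ n₀ : ℕ, ∀ n : ℕ, n₀ ≤ n → n ∉ N → K ≤ pairs S n) ∧
    LawOn S (fun L u v => ∀ a b : ℤ, (a, b) ∈ L → (a, b + 2) ∈ L → ∀ m : ℕ, u ≤ m → m < v → ∀ n ∈ N,
      ¬ (n ^ 3 < value (a, b) m ∧ value (a, b) m + 2 < (n + 1) ^ 3)) := by
  classical
  intro N
  obtain ⟨S, h1, h2, h3⟩ := Pool.Agent.U462.Sh.shiftOn {0, 2} (by simp)
    {t | ∃ n ∈ N, n ^ 3 < t ∧ t + 2 < (n + 1) ^ 3}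
  have hlaw : LawOn S (fun L u v => ∀ a b : ℤ, (a, b) ∈ L → (a, b + 2) ∈ L → ∀ m : ℕ, u ≤ m → m < v → ∀ n ∈ N,
      ¬ (n ^ 3 < value (a, b) m ∧ value (a, b) m + 2 < (n + 1) ^ 3)) := by
    refine Pool.Agent.U462.Sh.on_mono ?_ h3
    rintro L u v hL a b hab m hm1 hm2 ⟨n, hn, h4⟩
    exact hL a b (by simpa using hab 0 (by simp)) (by simpa using hab 2 (by simp)) m hm1 hm2 n hn h4
  have hfin : ∀ n, {t : ℕ | t ∈ S ∧ t + 2 ∈ S ∧ n ^ 3 < t ∧ t + 2 < (n + 1) ^ 3}.Finite := fun n =>
    (Set.finite_Iio ((n + 1) ^ 3)).subset (fun t ht => by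
      have := ht.2.2.2
      simp only [Set.mem_Iio]
      omega)
  refine ⟨S, h1, ?_, ?_, hlaw⟩
  · intro n hn
    unfold pairs
    rw [Set.ncard_eq_zero (hfin n)]
    ext t
    simp only [Set.mem_setOf_eq, Set.mem_empty_iff_false, iff_false]
    rintro ⟨h4, h5, h6⟩
    apply h2 t ⟨n, hn, h6⟩
    intro d hd
    simp only [mem_insert, mem_singleton] at hd
    rcases hd with rfl | rfl
    exacts [h4, h5]
  · intro K
    obtain ⟨X0, hX0⟩ := Pool.Agent.U462.Sh.many hlaw {(1, 0), (1, 2)} Pool.Agent.U462.Sh.twin_sys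
      Pool.Agent.U462.Sh.twin_adm (2 / 3) (by norm_num) K
    refine ⟨X0 + 2, ?_⟩
    intro n hn hnN
    have hbig : X0 ≤ (n + 1) ^ 3 := by
      calc X0 ≤ n + 1 := by omega
        _ ≤ (n + 1) ^ 3 := Nat.le_self_pow (by norm_num) _
    have e3 : (n + 1) ^ 3 = n ^ 3 + 3 * n ^ 2 + 3 * n + 1 := by ring
    have hn2 : 2 * 2 ≤ n ^ 2 := by
      calc 2 * 2 ≤ n * n := Nat.mul_le_mul (by omega) (by omega)
        _ = n ^ 2 := by ring
    refine (hX0 ((n + 1) ^ 3) hbig (n ^ 3 + 1) ((n + 1) ^ 3 - 2) (by omega) (by omega) ?_ ?_ ?_).trans ?_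
    · have e4 : (((n + 1) ^ 3 : ℕ) : ℝ) ^ (2 / 3 : ℝ) = ((n : ℝ) + 1) ^ 2 := by
        push_cast
        rw [← Real.rpow_natCast, ← Real.rpow_mul (by positivity), ← Real.rpow_natCast]
        norm_num
      rw [e4, Nat.cast_sub (by omega)]
      push_cast
      have hnR : (2 : ℝ) ≤ n := by exact_mod_cast (by omega : 2 ≤ n)
      nlinarith
    · intro m hm1 hm2 l hl
      simp only [mem_insert, mem_singleton] at hl
      have : (2 : ℤ) ≤ m := by
        have h4 : 1 ≤ n ^ 3 := Nat.one_le_pow _ _ (by omega)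
        exact_mod_cast (by omega : 2 ≤ m)
      rcases hl with rfl | rfl
      · linarith
      · linarith
    · intro a b ha hb m hm1 hm2 n' hn' h4
      simp only [mem_insert, mem_singleton, Prod.mk.injEq] at ha hb
      have hab : a = 1 ∧ b = 0 := by omega
      obtain ⟨rfl, rfl⟩ := hab
      have e5 : value (1, 0) m = m := by simp [value]
      rw [e5] at h4
      have h5 : n = n' := by
        apply le_antisymm
        · by_contra hcon
          have h6 : (n' + 1) ^ 3 ≤ n ^ 3 := Nat.pow_le_pow_left (by omega) 3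
          omega
        · by_contra hcon
          have h6 : (n + 1) ^ 3 ≤ n' ^ 3 := Nat.pow_le_pow_left (by omega) 3
          omega
      rw [h5] at hnN
      exact hnN hn'
    · unfold count pairs
      apply Set.ncard_le_ncard _ (hfin n)
      rintro m ⟨hm1, hm2, hall⟩
      have h4 := hall (1, 0) (by simp)
      have h5 := hall (1, 2) (by simp)
      have e5 : value (1, 0) m = m := by simp [value]
      have e6 : value (1, 2) m = m + 2 := by
        unfold value
        have : (1 : ℤ) * (m : ℤ) + 2 = ((m + 2 : ℕ) : ℤ) := by push_cast; ring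
        rw [this, Int.toNat_natCast]
      rw [e5] at h4
      rw [e6] at h5
      exact ⟨h4, h5, by omega, by omega⟩

end Pool.Agent.Results.MP_d610d0_nt.AnyPatternOfCubes
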