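import Mathlib
import Pool.Agent.U949.CL.All
import Pool.Agent.U949.CL.Freq

set_option autoImplicit false

/-!
# Prime constellations between consecutive cubes: the limit law in random models

The question is how many pairs of twin primes lie between consecutive cubes.  In Cramér's model of the primes with
a growing sieve (independent choices; no `m` with a prime factor at most `z(m)` is chosen, the other `m` with
probability `∏_{q ≤ z(m)} (1 - 1/q)⁻¹ / log m`), where `z` is any function with `z(m) ≤ (log m) / 64`, the number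
of twin pairs, and of the constellations of every admissible shape, between `n³` and `(n + 1)³` is almost surely
asymptotic to its mean, and it is asymptotically normal with variance equal to the mean.
-/

open MeasureTheory ProbabilityTheory Filter
open scoped Topology

namespace Pool.Agent.Results.MP_d610d0_nt.GaussianLaw

/-- the number of `p` such that all `p + h i` belong to `S` and lie strictly between `n³` and `(n + 1)³`; for
`h = (0, 2)` and the set `S` of the primes this is the number `T(n)` of pairs of twin primes -/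
noncomputable def T {k : ℕ} (h : Fin (k + 1) → ℕ) (S : Set ℕ) (n : ℕ) : ℕ :=
  {p | ∀ i, n ^ 3 < p + h i ∧ p + h i < (n + 1) ^ 3 ∧ p + h i ∈ S}.ncard

/-- `0 = h₀ < h₁ < … < h_k`, and no prime `q` has the property that every `y` has some `y + h i` divisible by `q` -/
def Admissible {k : ℕ} (h : Fin (k + 1) → ℕ) : Prop :=
  h 0 = 0 ∧ StrictMono h ∧ ∀ q : ℕ, q.Prime → ∃ y, ∀ i, ¬ q ∣ y + h i

/-- `∏_{q ≤ x} (1 - 1/q)⁻¹`, `q` prime -/
noncomputable def W (x : ℕ) : ℝ := ∏ q ∈ (Finset.Icc 1 x).filter Nat.Prime, (1 - (q : ℝ)⁻¹)⁻¹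

open Classical in
/-- the probability that `m` is chosen: `W (z m) / log m` (at most `1`) if `m` has no prime factor at most
`z m`, and `0` otherwise -/
noncomputable def rho (z : ℕ → ℕ) (m : ℕ) : ℝ :=
  if ∀ q, q.Prime → q ≤ z m → ¬ q ∣ m then min 1 (W (z m) / Real.log m) else 0

/-- the mean: the sum of `∏ rho (p + h i)` over all `p` with `n³ < p` and `p + h k < (n + 1)³` -/
noncomputable def E {k : ℕ} (h : Fin (k + 1) → ℕ) (z : ℕ → ℕ) (n : ℕ) : ℝ :=
  ∑ p ∈ Finset.Ioc (n ^ 3) ((n + 1) ^ 3 - 1 - h (Fin.last k)), ∏ i, rho z (p + h i)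

open Pool.Agent.U949.CL

lemma forms {k : ℕ} {h : Fin (k + 1) → ℕ} (hh : Admissible h) :
    Forms (Nat.succ_le_succ (Nat.zero_le k)) (fun _ : Fin (k + 1) => 1) h where
  pos := fun _ => le_rfl
  adm := fun q hq => by
    obtain ⟨y, hy⟩ := hh.2.2 q hq
    exact ⟨y, fun i => by rw [one_mul]; exact hy i⟩
  lt := fun y _ i hi => by
    have : h 0 < h i := hh.2.1 (Fin.pos_iff_ne_zero.2 hi)
    show 1 * y + h 0 < 1 * y + h i
    omega
  dist := fun y _ i j hij => by
    have : h i = h j := by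
      simp only at hij
      omega
    exact hh.2.1.injective this

lemma windows (D : ℕ) : Windows (fun n => n ^ 3) (fun n => n ^ 3) (fun n => (n + 1) ^ 3 - 1 - D) ∧
    ∀ᶠ n : ℕ in atTop, n ^ 2 ≤ (n + 1) ^ 3 - 1 - D - n ^ 3 := by
  have h1 : ∀ᶠ n : ℕ in atTop, n ^ 2 ≤ (n + 1) ^ 3 - 1 - D - n ^ 3 := by
    filter_upwards [eventually_ge_atTop (D + 1)] with n hn
    have e1 : (n + 1) ^ 3 = n ^ 3 + 3 * n ^ 2 + 3 * n + 1 := by ring
    omega
  have h2 : ∀ᶠ n : ℕ in atTop, n ^ 3 + n ^ 2 ≤ (n + 1) ^ 3 - 1 - D := by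
    filter_upwards [eventually_ge_atTop (D + 1)] with n hn
    have e1 : (n + 1) ^ 3 = n ^ 3 + 3 * n ^ 2 + 3 * n + 1 := by ring
    omega
  have h3 : Tendsto (fun n : ℕ => n ^ 2) atTop atTop := tendsto_pow_atTop (by norm_num)
  refine ⟨⟨fun _ => le_rfl, tendsto_pow_atTop (by norm_num), ?_, ?_, tendsto_atTop_mono' _ h1 h3⟩, h1⟩
  · filter_upwards [h2] with n hn
    omega
  · filter_upwards [h1, eventually_ge_atTop 2] with n hn hn2
    have e1 : (n ^ 2) ^ 4 ≤ ((n + 1) ^ 3 - 1 - D - n ^ 3) ^ 4 := Nat.pow_le_pow_left hn 4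
    refine le_trans ?_ e1
    have e2 : (n + 1) ^ 3 ≤ (n ^ 2) ^ 4 := by
      have e3 : n + 1 ≤ n ^ 2 := by nlinarith
      calc (n + 1) ^ 3 ≤ (n ^ 2) ^ 3 := Nat.pow_le_pow_left e3 3
        _ ≤ (n ^ 2) ^ 4 := Nat.pow_le_pow_right (by positivity) (by norm_num)
    omega

lemma T_eq {k : ℕ} {h : Fin (k + 1) → ℕ} (hh : Admissible h) {Ω : Type} [MeasurableSpace Ω] (S : ℕ → Set Ω) (ω : Ω) (n : ℕ) :
    (T h {m | ω ∈ S m} n : ℝ) =
      ∑ y ∈ Finset.Ioc (n ^ 3) ((n + 1) ^ 3 - 1 - h (Fin.last k)), ∏ i, I1 (S (1 * y + h i)) ω := by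
  rw [← count_eq (fun _ : Fin (k + 1) => 1) h S (n ^ 3) ((n + 1) ^ 3 - 1 - h (Fin.last k)) ω]
  unfold T
  congr 2
  ext p
  constructor
  · intro hp
    have h0 := (hp 0).1
    have h1 := (hp (Fin.last k)).2.1
    rw [hh.1] at h0
    refine ⟨by omega, by omega, fun i => ?_⟩
    rw [one_mul]
    exact (hp i).2.2
  · rintro ⟨h1, h2, h3⟩ i
    have h4 : h i ≤ h (Fin.last k) := hh.2.1.monotone (Fin.le_last i)
    have h5 := h3 i
    rw [one_mul] at h5
    exact ⟨by omega, by omega, h5⟩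

/-- the number of `n < N` with `T(n) - E(n) ≤ x √E(n)` for the set `A` -/
noncomputable def below {k : ℕ} (h : Fin (k + 1) → ℕ) (z : ℕ → ℕ) (A : Set ℕ) (x : ℝ) (N : ℕ) : ℕ :=
  {n | n < N ∧ (T h A n : ℝ) - E h z n ≤ x * √(E h z n)}.ncard

open Classical in
lemma below_eq {k : ℕ} (h : Fin (k + 1) → ℕ) (z : ℕ → ℕ) (A : Set ℕ) (x : ℝ) (N : ℕ) :
    below h z A x N =
      ((Finset.range N).filter (fun n => (T h A n : ℝ) - E h z n ≤ x * √(E h z n))).card := by
  unfold below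
  rw [← Set.ncard_coe_finset]
  congr 1
  ext n
  simp only [Set.mem_ofPred_eq, Finset.coe_filter, Finset.mem_range]

lemma cubes_disj (k l : ℕ) (hkl : k ≠ l) :
    Disjoint (Set.Ioo (k ^ 3) ((k + 1) ^ 3)) (Set.Ioo (l ^ 3) ((l + 1) ^ 3)) := by
  have key : ∀ a b : ℕ, a < b → (a + 1) ^ 3 ≤ b ^ 3 := fun a b hab => Nat.pow_le_pow_left hab 3
  rw [Set.disjoint_left]
  intro m h1 h2
  rcases lt_or_gt_of_ne hkl with h | h
  · exact absurd (lt_trans h2.1 h1.2) (not_lt.2 (key k l h))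
  · exact absurd (lt_trans h1.1 h2.2) (not_lt.2 (key l k h))

lemma event_meas {k : ℕ} {h : Fin (k + 1) → ℕ} (hh : Admissible h) {Ω : Type} [MeasurableSpace Ω]
    (S : ℕ → Set Ω) (z : ℕ → ℕ) (n : ℕ) (x : ℝ) :
    MeasurableSet[Fs S (Set.Ioo (n ^ 3) ((n + 1) ^ 3))]
      {ω | (T h {m | ω ∈ S m} n : ℝ) - E h z n ≤ x * √(E h z n)} := by
  have h1 : @Measurable _ _ (Fs S (Set.Ioo (n ^ 3) ((n + 1) ^ 3))) _ (fun ω =>
      ∑ y ∈ Finset.Ioc (n ^ 3) ((n + 1) ^ 3 - 1 - h (Fin.last k)), ∏ i, I1 (S (1 * y + h i)) ω) := by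
    refine @Finset.measurable_sum _ _ _ _ _ _ (Fs S (Set.Ioo (n ^ 3) ((n + 1) ^ 3))) _ _ fun y hy => ?_
    refine @Finset.measurable_prod _ _ _ _ _ _ (Fs S (Set.Ioo (n ^ 3) ((n + 1) ^ 3))) _ _ fun i _ => ?_
    refine I1_Fs S ?_
    obtain ⟨h1, h2⟩ := Finset.mem_Ioc.1 hy
    have h4 : h i ≤ h (Fin.last k) := hh.2.1.monotone (Fin.le_last i)
    constructor <;> omega
  have h2 : {ω | (T h {m | ω ∈ S m} n : ℝ) - E h z n ≤ x * √(E h z n)} =
      (fun ω => ∑ y ∈ Finset.Ioc (n ^ 3) ((n + 1) ^ 3 - 1 - h (Fin.last k)), ∏ i, I1 (S (1 * y + h i)) ω) ⁻¹'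
        Set.Iic (E h z n + x * √(E h z n)) := by
    ext ω
    rw [Set.mem_ofPred_eq, Set.mem_preimage, Set.mem_Iic, ← T_eq hh]
    constructor <;> intro hc <;> linarith
  rw [h2]
  exact h1 measurableSet_Iic

/-- **Constellations between consecutive cubes in random models of the primes.**  Let `h` be admissible, for
instance `h = (0, 2)`.  Let `z(m)` be natural numbers with `z(m) ≤ (log m) / 64` for all large `m`, and let the
events `S m` that `m` is chosen be independent, with the probabilities `rho z m`, which is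
`min(1, ∏_{q ≤ z(m)} (1 - 1/q)⁻¹ / log m)` if `m` has no prime factor at most `z(m)` and `0` otherwise.  Let `T(n)`
be the number of `p` for which all `p + h i` are chosen and lie between `n³` and `(n + 1)³`, and `E(n)` its mean.
(1) `E(n) ≥ n ^ (8/5)` for all large `n`.
(2) Almost surely `T(n) / E(n)` tends to `1`; in particular, almost surely `T(n)` tends to infinity.
(3) For every real `x` the probability of `T(n) - E(n) ≤ x √E(n)` tends to `Φ(x)`, where `Φ` is the distribution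
function of the standard normal law.
(4) For every real `x`, almost surely the proportion of the `n < N` with `T(n) - E(n) ≤ x √E(n)` tends to `Φ(x)` as
`N → ∞`.
(5) The pair `(0, 2)` is admissible. -/
theorem result : (∀ {k : ℕ} (h : Fin (k + 1) → ℕ) (_ : Admissible h) {Ω : Type} [MeasurableSpace Ω]
    (μ : Measure Ω) [IsProbabilityMeasure μ] (S : ℕ → Set Ω) (_ : ∀ m, MeasurableSet (S m))
    (_ : iIndepSet S μ) (z : ℕ → ℕ) (_ : ∀ᶠ m : ℕ in atTop, (z m : ℝ) ≤ Real.log m / 64)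
    (_ : ∀ m, μ.real (S m) = rho z m),
    (∀ᶠ n : ℕ in atTop, (n : ℝ) ^ (8 / 5 : ℝ) ≤ E h z n) ∧
    (∀ᵐ ω ∂μ, Tendsto (fun n : ℕ => (T h {m | ω ∈ S m} n : ℝ) / E h z n) atTop (𝓝 1)) ∧
    (∀ᵐ ω ∂μ, Tendsto (fun n : ℕ => T h {m | ω ∈ S m} n) atTop atTop) ∧
    (∀ x : ℝ, Tendsto (fun n : ℕ => μ.real {ω | (T h {m | ω ∈ S m} n : ℝ) - E h z n ≤ x * √(E h z n)}) atTop
      (𝓝 ((gaussianReal 0 1).real (Set.Iic x)))) ∧
    (∀ x : ℝ, ∀ᵐ ω ∂μ, Tendsto (fun N : ℕ => (below h z {m | ω ∈ S m} x N : ℝ) / N) atTop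
      (𝓝 ((gaussianReal 0 1).real (Set.Iic x))))) ∧
    Admissible ![0, 2] := by
  refine ⟨?_, ?_⟩
  · intro k h hh Ω _ μ _ S hS hind z hz hp
    obtain ⟨hw, hlen⟩ := windows (h (Fin.last k))
    obtain ⟨r1, r2, -, r4⟩ := lin_all (μ := μ) (forms hh) z hz hw hS hind (fun m => hp m)
    have hEeq : ∀ n, E h z n = ∑ y ∈ Finset.Ioc (n ^ 3) ((n + 1) ^ 3 - 1 - h (Fin.last k)),
        ∏ i, Pool.Agent.N233.GM.rho1 z (1 * y + h i) := by
      intro n
      unfold E
      simp only [one_mul]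
      rfl
    have hpw : ∀ᶠ n : ℕ in atTop, (n : ℝ) ^ (8 / 5 : ℝ) ≤
        (((n + 1) ^ 3 - 1 - h (Fin.last k) - n ^ 3 : ℕ) : ℝ) ^ (4 / 5 : ℝ) := by
      filter_upwards [hlen] with n hn
      have h1 : (n : ℝ) ^ 2 ≤ (((n + 1) ^ 3 - 1 - h (Fin.last k) - n ^ 3 : ℕ) : ℝ) := by exact_mod_cast hn
      calc (n : ℝ) ^ (8 / 5 : ℝ) = ((n : ℝ) ^ 2) ^ (4 / 5 : ℝ) := by
            rw [← Real.rpow_natCast, ← Real.rpow_mul (Nat.cast_nonneg n)]
            norm_num
        _ ≤ _ := Real.rpow_le_rpow (by positivity) h1 (by norm_num)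
    have hE1 : ∀ᶠ n : ℕ in atTop, (n : ℝ) ^ (8 / 5 : ℝ) ≤ E h z n := by
      filter_upwards [hpw, r1] with n g1 g2
      rw [hEeq]
      exact g1.trans g2
    have hlln : ∀ᵐ ω ∂μ, Tendsto (fun n : ℕ => (T h {m | ω ∈ S m} n : ℝ) / E h z n) atTop (𝓝 1) := by
      filter_upwards [r4 ⟨8 / 5, by norm_num, hpw⟩] with ω hω
      refine hω.congr fun n => ?_
      rw [T_eq hh, hEeq]
    have hclt : ∀ x : ℝ, Tendsto (fun n : ℕ =>
        μ.real {ω | (T h {m | ω ∈ S m} n : ℝ) - E h z n ≤ x * √(E h z n)}) atTop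
        (𝓝 ((gaussianReal 0 1).real (Set.Iic x))) := by
      intro x
      refine (r2 x).congr fun n => ?_
      simp only [T_eq hh, hEeq]
    refine ⟨hE1, hlln, ?_, hclt, fun x => ?_⟩
    · filter_upwards [hlln] with ω hω
      have h1 : ∀ᶠ n : ℕ in atTop, (1 / 2 : ℝ) ≤ (T h {m | ω ∈ S m} n : ℝ) / E h z n :=
        hω.eventually (le_mem_nhds (by norm_num))
      have h2 : Tendsto (fun n : ℕ => 1 / 2 * (n : ℝ) ^ (8 / 5 : ℝ)) atTop atTop :=
        ((tendsto_rpow_atTop (by norm_num)).comp tendsto_natCast_atTop_atTop).const_mul_atTop (by norm_num)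
      have h3 : Tendsto (fun n : ℕ => (T h {m | ω ∈ S m} n : ℝ)) atTop atTop := by
        refine tendsto_atTop_mono' _ ?_ h2
        filter_upwards [h1, hE1, eventually_ge_atTop 1] with n g1 g2 g3
        have g4 : (0 : ℝ) < (n : ℝ) ^ (8 / 5 : ℝ) := Real.rpow_pos_of_pos (by exact_mod_cast g3) _
        rw [le_div_iff₀ (by linarith)] at g1
        linarith
      exact tendsto_natCast_atTop_iff.1 h3
    · obtain ⟨D, hD⟩ : ∃ D : ℕ → Set Ω, ∀ n, D n = {ω | (T h {m | ω ∈ S m} n : ℝ) - E h z n ≤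
          x * √(E h z n)} := ⟨_, fun _ => rfl⟩
      have hDm : ∀ n ω, ω ∈ D n ↔ (T h {m | ω ∈ S m} n : ℝ) - E h z n ≤ x * √(E h z n) := by
        intro n ω
        rw [hD, Set.mem_ofPred_eq]
      have hm : ∀ n, MeasurableSet[Fs S (Set.Ioo (n ^ 3) ((n + 1) ^ 3))] (D n) := by
        intro n
        rw [hD]
        exact event_meas hh S z n x
      have hm2 : ∀ n, MeasurableSet (D n) := fun n => Fs_le hS _ _ (hm n)
      have hlim : Tendsto (fun n => μ.real (D n)) atTop (𝓝 ((gaussianReal 0 1).real (Set.Iic x))) := by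
        refine (hclt x).congr fun n => ?_
        rw [hD]
      have hind2 := indep_blocks2 (μ := μ) hS hind (fun n => Set.Ioo (n ^ 3) ((n + 1) ^ 3)) cubes_disj D hm
      have hfr := freq_ae hm2 hind2 (gauss_pos0 x) hlim
      filter_upwards [hfr] with ω hω
      refine hω.congr fun N => ?_
      congr 1
      rw [Co_range, below_eq, Finset.card_filter]
      push_cast
      refine Finset.sum_congr rfl fun n _ => ?_
      unfold I1
      by_cases hc : (T h {m | ω ∈ S m} n : ℝ) - E h z n ≤ x * √(E h z n)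
      · rw [if_pos hc, Set.indicator_of_mem ((hDm n ω).2 hc)]
      · rw [if_neg hc, Set.indicator_of_notMem (fun h1 => hc ((hDm n ω).1 h1))]
  · refine ⟨rfl, ?_, fun q hq => ?_⟩
    · intro i j hij
      fin_cases i <;> fin_cases j <;> simp_all
    · by_cases h3 : q = 3
      · refine ⟨2, fun i => ?_⟩
        subst h3
        fin_cases i <;> simp
      · refine ⟨1, fun i => ?_⟩
        have h1 := hq.two_le
        fin_cases i
        · simp only [Fin.zero_eta, Fin.isValue, Matrix.cons_val_zero]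
          intro hd
          have := Nat.le_of_dvd (by norm_num) hd
          omega
        · simp only [Fin.mk_one, Fin.isValue, Matrix.cons_val_one, Matrix.cons_val_fin_one]
          intro hd
          have := (Nat.prime_dvd_prime_iff_eq hq Nat.prime_three).1 hd
          exact h3 this

end Pool.Agent.Results.MP_d610d0_nt.GaussianLaw
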