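import Pool.Agent.U832.RG.FixedUse
import Pool.Agent.U832.RH.GeE

/-!
# Pairs `p, p + 2` of almost primes between consecutive cubes, and the windows around them

All pairs of twin primes except `(3, 5)` are of the form `(6 v + 5, 6 v + 7)`. Let `S` be the set of the `v` for which
neither `6 v + 5` nor `6 v + 7` has a prime factor `≤ x ^ (1 / r)`. In all intervals of length `≥ x ^ θ`, in particular
between consecutive cubes, the elements of `S` form a Poisson process: the numbers of elements of `S` in disjoint windows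
are independent Poisson variables, seen from an arbitrary integer, from an arbitrary element of `S`, or from an arbitrary
`v` for which `(6 v + 5) (6 v + 7)` has at most `R` prime factors, all `> x ^ w` (`R` and `w` do not depend on the
windows).
-/

set_option autoImplicit false

namespace Pool.Agent.Results.MP_d610d0_nt.PoissonPairs

open Finset Filter Pool.Agent.U832.RG Pool.Agent.U832.RH

/-- The product of the two numbers `6 v + 5`, `6 v + 7`. -/
def pair (v : ℕ) : ℕ := (6 * v + 5) * (6 * v + 7)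

section aux

open Polynomial Pool.Agent.Y879.GL
open Pool.Agent.W123.RU.Poly (Sys)

/-- the linear polynomials -/
noncomputable def f1 (c : ℤ) : ℤ[X] := C 6 * X + C c

lemma f1_eval (c x : ℤ) : (f1 c).eval x = 6 * x + c := by simp [f1]

lemma f1_deg (c : ℤ) : (f1 c).natDegree = 1 := natDegree_linear (by norm_num)

lemma f1_lead (c : ℤ) : (f1 c).leadingCoeff = 6 := leadingCoeff_linear (by norm_num)

lemma f1_irr (c : ℤ) (hc : IsCoprime (6 : ℤ) c) : Irreducible (f1 c) := by
  have hprim : (f1 c).IsPrimitive := by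
    intro r hr
    have h0 : r ∣ (f1 c).coeff 0 := (C_dvd_iff_dvd_coeff r (f1 c)).1 hr 0
    have h1 : r ∣ (f1 c).coeff 1 := (C_dvd_iff_dvd_coeff r (f1 c)).1 hr 1
    have e0 : (f1 c).coeff 0 = c := by simp [f1]
    have e1 : (f1 c).coeff 1 = 6 := by
      unfold f1
      rw [coeff_add, coeff_C_mul, coeff_X_one, coeff_C]
      norm_num
    rw [e0] at h0
    rw [e1] at h1
    exact hc.isUnit_of_dvd' h1 h0
  rw [IsPrimitive.Int.irreducible_iff_irreducible_map_cast hprim]
  apply irreducible_of_degree_eq_one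
  rw [degree_map_eq_of_injective (RingHom.injective_int _)]
  exact degree_linear (by norm_num)

/-- the system -/
noncomputable def F : Fin 2 → ℤ[X] := ![f1 5, f1 7]

lemma sys : Sys F where
  irr i := by
    fin_cases i
    · exact f1_irr 5 ⟨1, -1, by norm_num⟩
    · exact f1_irr 7 ⟨-1, 1, by norm_num⟩
  deg i := by
    fin_cases i
    · show 0 < (f1 5).natDegree
      rw [f1_deg]
      norm_num
    · show 0 < (f1 7).natDegree
      rw [f1_deg]
      norm_num
  lead i := by
    fin_cases i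
    · show 0 < (f1 5).leadingCoeff
      rw [f1_lead]
      norm_num
    · show 0 < (f1 7).leadingCoeff
      rw [f1_lead]
      norm_num
  inj i j h := by
    by_contra hij
    have h3 : (i = 0 ∧ j = 1) ∨ (i = 1 ∧ j = 0) := by omega
    have h4 := congrArg (eval 0) h
    rcases h3 with ⟨rfl, rfl⟩ | ⟨rfl, rfl⟩
    · change (f1 5).eval 0 = (f1 7).eval 0 at h4
      rw [f1_eval, f1_eval] at h4
      omega
    · change (f1 7).eval 0 = (f1 5).eval 0 at h4
      rw [f1_eval, f1_eval] at h4
      omega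
  adm p hp := by
    have key : ∀ m : ℕ, ¬ p ∣ (6 * m + 5) * (6 * m + 7) → ∀ i, ¬ (p : ℤ) ∣ (F i).eval (m : ℤ) := by
      intro m hm i hi
      apply hm
      fin_cases i
      · change (p : ℤ) ∣ (f1 5).eval (m : ℤ) at hi
        rw [f1_eval, show (6 * (m : ℤ) + 5) = ((6 * m + 5 : ℕ) : ℤ) by push_cast; ring, Int.natCast_dvd_natCast] at hi
        exact Dvd.dvd.mul_right hi _
      · change (p : ℤ) ∣ (f1 7).eval (m : ℤ) at hi
        rw [f1_eval, show (6 * (m : ℤ) + 7) = ((6 * m + 7 : ℕ) : ℤ) by push_cast; ring, Int.natCast_dvd_natCast] at hi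
        exact Dvd.dvd.mul_left hi _
    by_cases h35 : p ∣ 35
    · refine ⟨1, key 1 ?_⟩
      intro h
      have h1 : p ∣ 1 := by
        have h2 : p ∣ 4 * 35 := Dvd.dvd.mul_left h35 4
        have h3 := Nat.dvd_sub h h2
        have h4 : (6 * 1 + 5) * (6 * 1 + 7) - 4 * 35 = 3 := by norm_num
        rw [h4] at h3
        have h5 : p = 3 := (Nat.prime_dvd_prime_iff_eq hp Nat.prime_three).1 h3
        subst h5
        exact absurd h35 (by norm_num)
      exact hp.one_lt.ne' (Nat.dvd_one.1 h1)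
    · exact ⟨0, key 0 h35⟩

lemma noshift : NoShift F := by
  intro i j t ht h1
  by_cases hij : i = j
  · subst hij
    exact no_self (F i) (sys.deg i).ne' t (by exact_mod_cast (by omega : t ≠ 0)) h1
  · have h3 : (i = 0 ∧ j = 1) ∨ (i = 1 ∧ j = 0) := by omega
    rcases assoc_cases h1 with h4 | h4
    · have h5 := congrArg (eval 0) h4
      rw [eval_comp, eval_add, eval_X, eval_C, zero_add] at h5
      rcases h3 with ⟨rfl, rfl⟩ | ⟨rfl, rfl⟩
      · change (f1 5).eval 0 = (f1 7).eval (t : ℤ) at h5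
        rw [f1_eval, f1_eval] at h5
        omega
      · change (f1 7).eval 0 = (f1 5).eval (t : ℤ) at h5
        rw [f1_eval, f1_eval] at h5
        omega
    · have h5 := congrArg leadingCoeff h4
      rw [leadingCoeff_neg, lc_shift] at h5
      have h6 := sys.lead i
      have h7 := sys.lead j
      omega

lemma g_eq (n : ℕ) : (pair n : ℤ) = ∏ i, (F i).eval (n : ℤ) := by
  rw [Fin.prod_univ_two]
  show (pair n : ℤ) = (f1 5).eval (n : ℤ) * (f1 7).eval (n : ℤ)
  rw [f1_eval, f1_eval]
  unfold pair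
  push_cast
  ring

lemma g_le : ∀ᶠ x : ℕ in atTop, ∀ n ≤ x, pair n ≤ x ^ 4 := by
  filter_upwards [eventually_ge_atTop 7] with x hx n hn
  unfold pair
  have h1 : 6 * n + 7 ≤ x * x := by nlinarith
  calc (6 * n + 5) * (6 * n + 7) ≤ (x * x) * (x * x) := Nat.mul_le_mul (by omega) h1
    _ = x ^ 4 := by ring

end aux

/-- Let `θ, δ > 0`. There are `w > 0` and `R`, such that for all `J`, `L`, `x₀`, all `ε > 0` and all large `r`: for all
large `x`, with `y = ⌊x ^ (1 / r)⌋`, `z = ⌊x ^ w⌋`, ALL intervals `(Z, Z + Y]` with `Y ≥ x ^ θ` and all `T` with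
`T V ≤ x₀`, `V = V pair y`:
(1) the set `Rough pair y` of the `v` for which neither `6 v + 5` nor `6 v + 7` has a prime factor `≤ y` satisfies
`PoissonLaw`: for all disjoint windows `(a j, b j] ⊆ (0, T]`, `j < J`, all `s ≤ T` outside of them and all `k j ≤ L`,
the number of the `n` in `(Z, Z + Y]` with `n + s ∈ Rough pair y` and exactly `k j` elements of `Rough pair y` in
`(n + a j, n + b j]` for all `j` is `Y V Π` up to `ε Y V`, where `Π` is the product of the probabilities that a Poisson
variable of mean `(b j - a j) V` has the value `k j`; and the same without the condition on `n + s`, with `Y` instead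
of `Y V`;
(2) if `Z + Y + T ≤ x`: the number of the `n` in `(Z, Z + Y]` for which `v = n + s` is in `Almost pair R z`
(`(6 v + 5) (6 v + 7)` has at most `R` prime factors, all `> z`), with the same windows, is `Y W Π` up to
`(δ Π + ε) Y W`, `W = V pair z`. -/
theorem result (θ δ : ℝ) (hθ : 0 < θ) (hδ : 0 < δ) :
    ∃ w : ℝ, 0 < w ∧ ∃ R : ℕ, ∀ (J L : ℕ) (x₀ ε : ℝ), 0 < ε → ∃ r₀ : ℕ, ∀ r : ℕ, r₀ ≤ r → ∀ᶠ x : ℕ in atTop,
      ∀ y z : ℕ, y = ⌊(x : ℝ) ^ (1 / (r : ℝ))⌋₊ → z = ⌊(x : ℝ) ^ w⌋₊ →
      ∀ Z Y T : ℕ, (x : ℝ) ^ θ ≤ Y → T * V pair y ≤ x₀ →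
        PoissonLaw (Rough pair y) (V pair y) J L ε Z Y T ∧
        (Z + Y + T ≤ x →
          CentreLaw (Almost pair R z) (Rough pair y) (V pair z) (V pair y) J L δ ε Z Y T) := by
  obtain ⟨w, hw, hG⟩ := fixedG F sys (by norm_num) noshift pair g_eq 4 g_le θ hθ δ hδ
  refine ⟨w, hw, ⌊((4 : ℕ) : ℝ) / w⌋₊, ?_⟩
  intro J L x₀ ε hε
  obtain ⟨r₁, h⟩ := (fixed_main F sys (by norm_num) noshift pair g_eq θ hθ).1 J L x₀ ε hε
  obtain ⟨r₂, h'⟩ := hG J L x₀ ε hε
  refine ⟨max r₁ r₂, fun r hr => ?_⟩
  filter_upwards [h r ((le_max_left _ _).trans hr), h' r ((le_max_right _ _).trans hr)] with x hx hx'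
  intro y z hy hz Z Y T hY hT
  exact ⟨hx y hy Z Y T hY hT, fun hZ => hx' y z hy hz Z Y T hY hT hZ⟩

end Pool.Agent.Results.MP_d610d0_nt.PoissonPairs
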