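import Pool.Agent.U455.DSW
import Pool.Agent.U766.OP.Sq
import Pool.Agent.U766.OP.Exa
import Pool.Agent.Q278.KT.Fin

/-!
# Dense sets of primes between consecutive cubes: bounded sums of frequent differences are all multiples of a number

For every `δ > 0` there are `h`, `M ≥ 1`, `κ > 0` and `K` such that for ALL large `n`, for EVERY interval
`(a, a + H] ⊆ (n³, (n + 1)³)` of length `H ≥ n ^ 1.845` (for instance the whole interval between the two cubes) and for
EVERY set `Q` of primes of this interval which contains at least the proportion `δ` of them: EVERY multiple `t` of `M` with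
`K log n ≤ t ≤ H` is a sum of at most `h` positive integers `d` each of which is the difference of at least
`κ H / (log n)²` pairs `p, p + d` of elements of `Q` (the right order of magnitude).

Proof: cutting the interval into short blocks and residue classes, the Cauchy-Schwarz inequality gives many pairs of
elements of `Q` at distance `2 b k`, `k ≤ L`, for every fixed `b` and all `L ≥ K log n`; the upper bound sieve
(`Pool.Agent.Y840.PT.up`) and the second moment of the singular series (`Pool.Agent.TH891.SG.CT_mom`) show that a positive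
proportion of the `k ≤ L` is popular (`Pool.Agent.U455.PCW.pop`). Then a theorem on bounded sums for sets of positive
density (`Pool.Agent.U455.BTG.main`): a covering lemma gives a point of the set from which the set is dense at all scales
in its residue class modulo a bounded number `d`; Schnirelmann's theorem gives there a progression of sums with difference
`d` and length a multiple of `log n`, and Schnirelmann's theorem for blocks which contain a multiple of `d` in the set
reaches every `t`. The number of primes of the interval is bounded from below by `Pool.Agent.Q278.KT.mainp_043`.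
-/

set_option autoImplicit false

namespace Pool.Agent.Results.MP_d610d0_nt.SumsInDenseSubsets

open Filter Finset

theorem result (δ : ℝ) (hδ : 0 < δ) : ∃ h M : ℕ, 1 ≤ M ∧ ∃ κ K : ℝ, 0 < κ ∧ ∀ᶠ n : ℕ in atTop,
    ∀ a H : ℕ, n ^ 3 ≤ a → a + H < (n + 1) ^ 3 → (n : ℝ) ^ (1.845 : ℝ) ≤ H →
    ∀ Q : Finset ℕ, Q ⊆ (Ioc a (a + H)).filter Nat.Prime →
      δ * (((Ioc a (a + H)).filter Nat.Prime).card : ℝ) ≤ Q.card →
    ∀ t : ℕ, M ∣ t → K * Real.log n ≤ t → t ≤ H →
    ∃ l : List ℕ, l.length ≤ h ∧ l.sum = t ∧ ∀ d ∈ l, 1 ≤ d ∧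
      κ * (H / Real.log n ^ 2) ≤ ((Q.filter (fun p => p + d ∈ Q)).card : ℝ) := by
  classical
  obtain ⟨c, η, hc, hη, hη1, hall⟩ := Pool.Agent.U766.OP.all_long Pool.Agent.Q278.KT.mainp_043
    (by norm_num) (by norm_num) (by norm_num) (by norm_num)
  obtain ⟨h, M, hM, κ, K, hκ, hK, X₀, hmain⟩ := Pool.Agent.U455.DSW.main (δ * c / 3) (by positivity)
  refine ⟨h, M, hM, κ / 9, 3 * K, by positivity, ?_⟩
  have tn : Tendsto (fun n : ℕ => (n : ℝ)) atTop atTop := tendsto_natCast_atTop_atTop
  have t3 : Tendsto (fun n : ℕ => (n : ℝ) ^ 3) atTop atTop := (tendsto_pow_atTop (by norm_num)).comp tn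
  filter_upwards [t3.eventually hall, eventually_ge_atTop 8, eventually_ge_atTop X₀,
    (Real.tendsto_log_atTop.comp tn).eventually_ge_atTop 3] with n hn hn8 hnX hlog
    a H ha haH hH Q hQ hQc t hMt htK htH
  have hlog' : 3 ≤ Real.log (n : ℝ) := hlog
  have hn8' : (8 : ℝ) ≤ n := by exact_mod_cast hn8
  have hn0 : (0 : ℝ) < n := by linarith
  have hn1 : (1 : ℝ) ≤ n := by linarith
  have haR : (n : ℝ) ^ 3 ≤ a := by exact_mod_cast ha
  have haHR : (a : ℝ) + H ≤ ((n : ℝ) + 1) ^ 3 := by exact_mod_cast haH.le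
  have hH1 : (H : ℝ) ≤ 4 * (n : ℝ) ^ 2 := by nlinarith [sq_nonneg ((n : ℝ) - 4)]
  have hHn : (n : ℝ) ≤ H := by
    refine le_trans ?_ hH
    calc (n : ℝ) = (n : ℝ) ^ (1 : ℝ) := (Real.rpow_one _).symm
      _ ≤ (n : ℝ) ^ (1.845 : ℝ) := Real.rpow_le_rpow_of_exponent_le hn1 (by norm_num)
  have hH0 : (0 : ℝ) < H := by linarith
  have hHn' : n ≤ H := by exact_mod_cast hHn
  have hHa : H ≤ a := by
    have h1 : (H : ℝ) ≤ a := by nlinarith [sq_nonneg (n : ℝ)]
    exact_mod_cast h1
  -- the logarithms
  have hl1 : Real.log n ≤ Real.log H := Real.log_le_log hn0 hHn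
  have hl2 : Real.log H ≤ 3 * Real.log n := by
    have h1 : (H : ℝ) ≤ (n : ℝ) ^ 3 := by nlinarith [sq_nonneg (n : ℝ)]
    have h2 := Real.log_le_log hH0 h1
    rw [Real.log_pow] at h2
    exact_mod_cast h2
  have hlog3 : Real.log ((n : ℝ) ^ 3) = 3 * Real.log n := by rw [Real.log_pow]; norm_num
  -- the number of primes
  have hprimes : c * H / (3 * Real.log n) ≤ (((Ioc a (a + H)).filter Nat.Prime).card : ℝ) := by
    have h4 := hn a H haR (by nlinarith [sq_nonneg ((n : ℝ) - 4)]) (by
      refine le_trans ?_ hH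
      rw [show (1 : ℝ) - 0.43 + 0.045 - η = 0.615 - η by norm_num, ← Real.rpow_natCast (n : ℝ) 3,
        ← Real.rpow_mul hn0.le]
      apply Real.rpow_le_rpow_of_exponent_le hn1
      push_cast
      linarith)
    rw [Pool.Agent.U766.OP.pic_nat, hlog3] at h4
    exact h4
  have hQsub : Q ⊆ Ioc a (a + H) := fun p hp => (mem_filter.1 (hQ hp)).1
  have hQp : ∀ p ∈ Q, p.Prime := fun p hp => (mem_filter.1 (hQ hp)).2
  have hQc' : δ * c / 3 * (H / Real.log H) ≤ Q.card := by
    refine le_trans ?_ hQc
    calc δ * c / 3 * (H / Real.log H) ≤ δ * c / 3 * (H / Real.log n) := by gcongr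
      _ = δ * (c * H / (3 * Real.log n)) := by field_simp
      _ ≤ _ := mul_le_mul_of_nonneg_left hprimes hδ.le
  obtain ⟨l, hl1', hl2', hl3⟩ := hmain a H (hnX.trans hHn') hHa Q hQsub hQp hQc' t hMt (by
    calc K * Real.log H ≤ K * (3 * Real.log n) := by gcongr
      _ = 3 * K * Real.log n := by ring
      _ ≤ t := htK) htH
  refine ⟨l, hl1', hl2', fun d hd => ⟨(hl3 d hd).1, le_trans ?_ (hl3 d hd).2⟩⟩
  have h5 : (H : ℝ) / (3 * Real.log n) ^ 2 ≤ H / Real.log H ^ 2 := by
    have : 0 < Real.log (H : ℝ) := by linarith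
    gcongr
  calc κ / 9 * (H / Real.log n ^ 2) = κ * (H / (3 * Real.log n) ^ 2) := by
        rw [mul_pow]
        field_simp
        norm_num
    _ ≤ κ * (H / Real.log H ^ 2) := by gcongr

end Pool.Agent.Results.MP_d610d0_nt.SumsInDenseSubsets
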